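import Mathlib
import Pool.Agent.R237.Chi
import Pool.Agent.R237.Hz

/-! Mergelyan's theorem for polynomial approximation in the chordal metric. -/

set_option autoImplicit false

open Filter Topology Set
open scoped OnePoint

namespace Pool.Agent.Results.MP_215127_an.ChordalMergelyan

open Pool.Agent.R237.Chi Pool.Agent.R237.Hz

/-- The chordal metric `χ` on the Riemann sphere `OnePoint ℂ = ℂ ∪ {∞}`:
`χ(a,b) = |a-b| / (√(1+|a|²) √(1+|b|²))`, `χ(a,∞) = χ(∞,a) = 1/√(1+|a|²)`, `χ(∞,∞) = 0`. -/
noncomputable def chord : OnePoint ℂ → OnePoint ℂ → ℝ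
  | OnePoint.some a, OnePoint.some b => ‖a - b‖ / (√(1 + ‖a‖ ^ 2) * √(1 + ‖b‖ ^ 2))
  | OnePoint.some a, OnePoint.infty => 1 / √(1 + ‖a‖ ^ 2)
  | OnePoint.infty, OnePoint.some b => 1 / √(1 + ‖b‖ ^ 2)
  | OnePoint.infty, OnePoint.infty => 0

theorem chord_eq (x y : OnePoint ℂ) : chord x y = chi x y := by
  induction x using OnePoint.rec with
  | infty =>
    induction y using OnePoint.rec with
    | infty => rfl
    | coe b => rfl
  | coe a =>
    induction y using OnePoint.rec with
    | infty => rfl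
    | coe b => rfl

/-- The maps `L → ℂ ∪ {∞}` that are limits, uniform on `L` for the chordal metric, of sequences of
complex polynomials. -/
def PolyLimits (L : Set ℂ) : Set (L → OnePoint ℂ) :=
  {f | ∃ p : ℕ → Polynomial ℂ, ∀ ε : ℝ, 0 < ε → ∃ n₀ : ℕ, ∀ n ≥ n₀, ∀ z : L,
    chord (((p n).eval (z : ℂ) : ℂ) : OnePoint ℂ) (f z) < ε}

/-- The class `M(L)`: continuous maps `f : L → ℂ ∪ {∞}` such that on each connected component `V`
of the interior of `L` either `f ≡ ∞`, or `f` is finite-valued and holomorphic. -/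
def ClassM (L : Set ℂ) : Set (L → OnePoint ℂ) :=
  {f | Continuous f ∧ ∀ V : Set ℂ, (∃ x ∈ interior L, V = connectedComponentIn (interior L) x) →
    (∀ z : L, (z : ℂ) ∈ V → f z = ∞) ∨
    ∃ g : ℂ → ℂ, DifferentiableOn ℂ g V ∧ ∀ z : L, (z : ℂ) ∈ V → f z = (g z : OnePoint ℂ)}

/-- For every compact `L ⊂ ℂ` with connected complement, the chordally uniform limits on `L` of
polynomials are exactly the functions in `M(L)`. -/
theorem result (L : Set ℂ) (hL : IsCompact L) (hLc : IsConnected Lᶜ) :
    PolyLimits L = ClassM L := by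
  classical
  ext f
  obtain ⟨F, hF⟩ : ∃ F : ℂ → OnePoint ℂ, ∀ z : L, F z = f z := by
    refine ⟨fun z => if h : z ∈ L then f ⟨z, h⟩ else ∞, fun z => ?_⟩
    show (if h : (z : ℂ) ∈ L then f ⟨z, h⟩ else ∞) = f z
    rw [dif_pos z.2]
  have key := chordal_mergelyan hL hLc F
  have hVL : ∀ x, connectedComponentIn (interior L) x ⊆ L := fun x =>
    (connectedComponentIn_subset _ _).trans interior_subset
  have e1 : f ∈ PolyLimits L ↔ ∃ p : ℕ → Polynomial ℂ, ∀ ε > 0, ∀ᶠ n in atTop, ∀ z ∈ L,
      chi (((p n).eval z : ℂ) : OnePoint ℂ) (F z) < ε := by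
    refine exists_congr fun p => forall_congr' fun ε => forall_congr' fun _ => ?_
    rw [eventually_atTop]
    refine exists_congr fun n₀ => forall_congr' fun n => forall_congr' fun _ => ?_
    constructor
    · intro h z hz
      have := h ⟨z, hz⟩
      rw [chord_eq, ← hF ⟨z, hz⟩] at this
      exact this
    · intro h z
      rw [chord_eq, ← hF z]
      exact h z z.2
  have e2 : ContinuousOn F L ↔ Continuous f := by
    rw [continuousOn_iff_continuous_domRestrict]
    have : L.domRestrict F = f := by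
      funext z
      exact hF z
    rw [this]
  rw [e1, key, e2]
  refine and_congr_right fun _ => ?_
  constructor
  · rintro h V ⟨x, hx, rfl⟩
    rcases h x hx with h1 | ⟨g, hg, h1⟩
    · left
      intro z hz
      rw [← hF z]
      exact h1 z hz
    · right
      refine ⟨g, hg, fun z hz => ?_⟩
      rw [← hF z]
      exact h1 z hz
  · intro h x hx
    rcases h _ ⟨x, hx, rfl⟩ with h1 | ⟨g, hg, h1⟩
    · left
      intro z hz
      have := h1 ⟨z, hVL x hz⟩ hz
      rw [← hF] at this
      exact this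
    · right
      refine ⟨g, hg, fun z hz => ?_⟩
      have := h1 ⟨z, hVL x hz⟩ hz
      rw [← hF] at this
      exact this

end Pool.Agent.Results.MP_215127_an.ChordalMergelyan
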